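import Pool.Agent.W740.TC.Final

set_option autoImplicit false

open scoped Manifold ContDiff Topology
open Set Filter

namespace Pool.Agent.Results.MP_afa31c_an.OneSidedAbelianPeriodic

open Pool.Agent.H721R2 Pool.Agent.H789R2.AN Pool.Agent.W740.TC

/-- **Density of periodic points for Anosov diffeomorphisms whose unstable leaves are properly
displaced in an abelian cover.**
Let `f` be a `C¹` Anosov diffeomorphism of a closed connected smooth manifold `M`.  Let
`φ : M → ℝᵏ/ℤᵏ` be a continuous map and `A` ANY integer `k × k` matrix such that `φ ∘ f` is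
homotopic to `A ∘ φ` (such `φ` and `A` exist for every `f`, with `φ` inducing the largest free
abelian cover of `M`).  Suppose that the unstable leaves are polynomially properly displaced by `φ`
(`PolyDisp f.symm φ`): for every neighbourhood `𝒰` of the diagonal there are constants `a`, `b` such
that, if `γ` is a path in an unstable leaf and `θ` is a lift to `ℝᵏ` of the path `φ ∘ γ`, then
`f⁻ⁿ(γ 0)` and `f⁻ⁿ(γ 1)` are `𝒰`-close for all `n ≥ a log (1 + ‖θ 1 - θ 0‖) + b`.  Nothing is
assumed on the stable foliation, on the fundamental group of `M`, or on the eigenvalues of `A`.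
Then the periodic points of `f` are dense, and every point of `M` is nonwandering. -/
theorem result (E : Type*) [NormedAddCommGroup E] [NormedSpace ℝ E] [FiniteDimensional ℝ E]
    (M : Type*) [TopologicalSpace M] [T2Space M] [CompactSpace M] [ConnectedSpace M]
    [ChartedSpace E M] [IsManifold 𝓘(ℝ, E) ∞ M] (f : Diffeomorph 𝓘(ℝ, E) 𝓘(ℝ, E) M M 1)
    (Es Eu : ∀ x : M, Submodule ℝ (TangentSpace 𝓘(ℝ, E) x)) (hA : IsAnosov f Es Eu)
    (k : ℕ) (A : Matrix (Fin k) (Fin k) ℤ) (φ : C(M, Fin k → AddCircle (1 : ℝ)))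
    (hφ : (φ.comp ⟨f, f.continuous⟩).Homotopic ((torusMap A).comp φ))
    (hU : PolyDisp f.symm φ) :
    Dense (Function.periodicPts f) ∧
      ∀ x : M, ∀ U ∈ 𝓝 x, ∃ n : ℕ, 1 ≤ n ∧ (f^[n] '' U ∩ U).Nonempty := by
  have key : Dense (Function.periodicPts f) := (man_homotopy f Es Eu hA A φ hφ hU).2.2.2
  refine ⟨key, fun x U hU => ?_⟩
  obtain ⟨y, ⟨n, hn, hy⟩, hyU⟩ := key.inter_nhds_nonempty hU
  exact ⟨n, hn, y, ⟨y, hyU, hy⟩, hyU⟩

end Pool.Agent.Results.MP_afa31c_an.OneSidedAbelianPeriodic
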