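import Pool.Agent.W740.TU.Sym

set_option autoImplicit false

open scoped Manifold ContDiff Topology
open Set Filter

namespace Pool.Agent.Results.MP_afa31c_an.TransverseTorusMapPeriodic

open Pool.Agent.H721R2 Pool.Agent.H789R2.AN Pool.Agent.W740.TU

/-- **Density of periodic points for Anosov diffeomorphisms with a torus map that is transverse to
one of the foliations.**
Let `f` be a `C¹` Anosov diffeomorphism of a closed connected smooth manifold `M`, with stable and
unstable bundles of ranks `s` and `u`.  Suppose that there is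
* a continuous map `p : M → (ℝ/ℤ)ᵘ` that is injective on the local unstable sets of some size
  (`UnstInj f.symm p`), i.e. for some neighbourhood `𝒰` of the diagonal one has `p x ≠ p y` if
  `x ≠ y` and `f⁻ⁿ x`, `f⁻ⁿ y` are `𝒰`-close for all `n ≥ 0`, or
* a continuous map `p : M → (ℝ/ℤ)ˢ` that is injective on the local stable sets of some size.
(No relation between `p` and `f` is assumed otherwise, and nothing is assumed on the other
foliation, on the dimensions, or on the fundamental group of `M`.)
Then the periodic points of `f` are dense, and every point of `M` is nonwandering. -/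
theorem result (E : Type*) [NormedAddCommGroup E] [NormedSpace ℝ E] [FiniteDimensional ℝ E]
    (M : Type*) [TopologicalSpace M] [T2Space M] [CompactSpace M] [ConnectedSpace M]
    [ChartedSpace E M] [IsManifold 𝓘(ℝ, E) ∞ M] (f : Diffeomorph 𝓘(ℝ, E) 𝓘(ℝ, E) M M 1)
    (Es Eu : ∀ x : M, Submodule ℝ (TangentSpace 𝓘(ℝ, E) x)) (hA : IsAnosov f Es Eu)
    (s u : ℕ) (hs : ∀ x, Module.finrank ℝ (Es x) = s) (hu : ∀ x, Module.finrank ℝ (Eu x) = u)
    (h : (∃ p : C(M, Fin u → AddCircle (1 : ℝ)), UnstInj f.symm p) ∨
      ∃ p : C(M, Fin s → AddCircle (1 : ℝ)), UnstInj f p) :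
    Dense (Function.periodicPts f) ∧
      ∀ x : M, ∀ U ∈ 𝓝 x, ∃ n : ℕ, 1 ≤ n ∧ (f^[n] '' U ∩ U).Nonempty := by
  have key : Dense (Function.periodicPts f) := (man_either f Es Eu hA hs hu h).2.2.2
  refine ⟨key, fun x U hU => ?_⟩
  obtain ⟨y, ⟨n, hn, hy⟩, hyU⟩ := key.inter_nhds_nonempty hU
  exact ⟨n, hn, y, ⟨y, hyU, hy⟩, hyU⟩

end Pool.Agent.Results.MP_afa31c_an.TransverseTorusMapPeriodic
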